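import Pool.Agent.L7h21.AB.Cb1
import Pool.Agent.L7h63.AB.Cb2

/-! Project AB, second stage, part CB (the two cases by helper21 and helper63). -/

namespace Pool.Agent.L7h21.AB
open Pool.Agent.L7h10.AB Polynomial

theorem s_CB : S_CB := by
  intro hC hR K _ _ p _ n hn hp
  classical
  have : Finite (Mon K (n - 2)) := (hC K (n - 2)).1
  have : Finite (Mon K 2) := (hC K 2).1
  have : Finite (Mon K (n - 3)) := (hC K (n - 3)).1
  let E : (K × Mon K (n - 2)) × (Mon K 2 × Mon K (n - 3)) → Prop := fun x =>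
    (X - C x.1.1) ^ 2 * x.1.2.1 = C ((n : K) + 1)⁻¹ * derivative (x.2.1.1 ^ 2 * x.2.2.1)
  have h1 : ({x | x.2.1.1.eval x.1.1 ≠ 0 ∧ E x} : Set ((K × Mon K (n - 2)) × (Mon K 2 × Mon K (n - 3)))).ncard ≤
      Nat.card K ^ (n - 2) := cb1 hC hR K p n hn hp
  have h2 : ({x | E x ∧ x.2.1.1.eval x.1.1 = 0} : Set ((K × Mon K (n - 2)) × (Mon K 2 × Mon K (n - 3)))).ncard ≤
      2 * Nat.card K ^ (n - 2) := Pool.Agent.L7h63.AB.cb2 hC K p n hn hp
  have h3 : ({x | E x} : Set ((K × Mon K (n - 2)) × (Mon K 2 × Mon K (n - 3)))) =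
      {x | x.2.1.1.eval x.1.1 ≠ 0 ∧ E x} ∪ {x | E x ∧ x.2.1.1.eval x.1.1 = 0} := by
    ext x
    show E x ↔ (x.2.1.1.eval x.1.1 ≠ 0 ∧ E x) ∨ (E x ∧ x.2.1.1.eval x.1.1 = 0)
    tauto
  show ({x | E x} : Set ((K × Mon K (n - 2)) × (Mon K 2 × Mon K (n - 3)))).ncard ≤ _
  rw [h3]
  refine (Set.ncard_union_le _ _).trans ?_
  omega

end Pool.Agent.L7h21.AB
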