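import Pool.Agent.L7h10.AB.Stm2

/-! Project AB, second stage: a case of CB. -/

namespace Pool.Agent.L7h21.AB
open Pool.Agent.L7h10.AB Polynomial

theorem cube {K : Type} [Field K] (h2 : (2 : K) ≠ 0) (F : K[X]) (b : K)
    (h : (X - C b) ^ 2 ∣ derivative F) : (X - C b) ^ 3 ∣ F - C (F.eval b) := by
  obtain ⟨u, hu⟩ : X - C b ∣ F - C (F.eval b) := X_sub_C_dvd_sub_C_eval
  obtain ⟨w, hw⟩ := h
  have h1 : derivative F = u + (X - C b) * derivative u := by
    have := congrArg derivative hu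
    rw [derivative_sub, derivative_C, sub_zero, derivative_mul, derivative_X_sub_C, one_mul] at this
    exact this
  set v := (X - C b) * w - derivative u with hv
  have h3 : u = (X - C b) * v := by
    rw [hv]
    linear_combination hw - h1
  have h4 : derivative u = v + (X - C b) * derivative v := by
    have := congrArg derivative h3
    rw [derivative_mul, derivative_X_sub_C, one_mul] at this
    exact this
  have h5 : C (2 : K) * v = (X - C b) * (w - derivative v) := by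
    have e : (C (2 : K) : K[X]) = 2 := rfl
    rw [e]
    linear_combination hv - h4
  have h6 : v = (X - C b) * (C (2 : K)⁻¹ * (w - derivative v)) := by
    have e : (C (2 : K)⁻¹ : K[X]) * C (2 : K) = 1 := by
      rw [← C_mul, inv_mul_cancel₀ h2, C_1]
    calc v = (C (2 : K)⁻¹ * C (2 : K)) * v := by rw [e, one_mul]
      _ = C (2 : K)⁻¹ * (C (2 : K) * v) := by ring
      _ = _ := by rw [h5]; ring
  refine ⟨C (2 : K)⁻¹ * (w - derivative v), ?_⟩
  rw [hu, h3]
  nth_rewrite 1 [h6]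
  ring

theorem cb1 (hC : S_CARD) (hR : S_RES) (K : Type) [Field K] [Finite K] (p : ℕ) [CharP K p] (n : ℕ)
    (hn : 6 ≤ n) (hp : n + 1 < p) :
    Nat.card {x : (K × Mon K (n - 2)) × (Mon K 2 × Mon K (n - 3)) //
      x.2.1.1.eval x.1.1 ≠ 0 ∧
      (X - C x.1.1) ^ 2 * x.1.2.1 = C ((n : K) + 1)⁻¹ * derivative (x.2.1.1 ^ 2 * x.2.2.1)} ≤
    Nat.card K ^ (n - 2) := by
  classical
  have h2 : (2 : K) ≠ 0 := by
    intro h
    have h' : ((2 : ℕ) : K) = 0 := by exact_mod_cast h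
    rw [CharP.cast_eq_zero_iff K p 2] at h'
    have := Nat.le_of_dvd (by norm_num) h'
    omega
  have hn1 : ((n : K) + 1) ≠ 0 := by
    intro h
    have h' : ((n + 1 : ℕ) : K) = 0 := by exact_mod_cast h
    rw [CharP.cast_eq_zero_iff K p (n + 1)] at h'
    have := Nat.le_of_dvd (by omega) h'
    omega
  haveI := (hC K (n - 2)).1
  haveI := (hC K 2).1
  haveI := (hC K (n - 3)).1
  -- a representative of the residue class
  let r : K × Mon K 2 × K → K[X] := fun t =>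
    if h : ∃ r : K[X], (X - C t.1) ^ 3 ∣ t.2.1.1 ^ 2 * r - C t.2.2 then h.choose else 0
  have key : ∀ (t : K × Mon K 2 × K) (h : K[X]), t.2.1.1.eval t.1 ≠ 0 →
      (X - C t.1) ^ 3 ∣ t.2.1.1 ^ 2 * h - C t.2.2 → (X - C t.1) ^ 3 ∣ h - r t := by
    intro t h hg hh
    have hex : ∃ r : K[X], (X - C t.1) ^ 3 ∣ t.2.1.1 ^ 2 * r - C t.2.2 := ⟨h, hh⟩
    have hr : r t = hex.choose := dif_pos hex
    have h1 := hex.choose_spec
    rw [← hr] at h1
    have h3 : (X - C t.1) ^ 3 ∣ t.2.1.1 ^ 2 * (h - r t) := by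
      have := dvd_sub hh h1
      have e : t.2.1.1 ^ 2 * h - C t.2.2 - (t.2.1.1 ^ 2 * r t - C t.2.2) =
        t.2.1.1 ^ 2 * (h - r t) := by ring
      rwa [e] at this
    have hcop : IsCoprime ((X - C t.1) ^ 3) (t.2.1.1 ^ 2) := by
      apply IsCoprime.pow
      rw [(irreducible_X_sub_C t.1).coprime_iff_not_dvd]
      intro hd
      exact hg (dvd_iff_isRoot.mp hd)
    exact hcop.dvd_of_dvd_mul_left h3
  let B := Σ t : K × Mon K 2 × K, {h : Mon K (n - 3) // (X - C t.1) ^ 3 ∣ h.1 - r t}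
  have hcube : ∀ x : (K × Mon K (n - 2)) × (Mon K 2 × Mon K (n - 3)),
      (X - C x.1.1) ^ 2 * x.1.2.1 = C ((n : K) + 1)⁻¹ * derivative (x.2.1.1 ^ 2 * x.2.2.1) →
      (X - C x.1.1) ^ 3 ∣ x.2.1.1 ^ 2 * x.2.2.1 - C ((x.2.1.1 ^ 2 * x.2.2.1).eval x.1.1) := by
    intro x hx
    apply cube h2
    refine ⟨C ((n : K) + 1) * x.1.2.1, ?_⟩
    have e : (C ((n : K) + 1) : K[X]) * C ((n : K) + 1)⁻¹ = 1 := by
      rw [← C_mul, mul_inv_cancel₀ hn1, C_1]
    calc derivative (x.2.1.1 ^ 2 * x.2.2.1) =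
        C ((n : K) + 1) * C ((n : K) + 1)⁻¹ * derivative (x.2.1.1 ^ 2 * x.2.2.1) := by
          rw [e, one_mul]
      _ = C ((n : K) + 1) * (C ((n : K) + 1)⁻¹ * derivative (x.2.1.1 ^ 2 * x.2.2.1)) := by ring
      _ = _ := by rw [← hx]; ring
  let φ : {x : (K × Mon K (n - 2)) × (Mon K 2 × Mon K (n - 3)) //
      x.2.1.1.eval x.1.1 ≠ 0 ∧
      (X - C x.1.1) ^ 2 * x.1.2.1 = C ((n : K) + 1)⁻¹ * derivative (x.2.1.1 ^ 2 * x.2.2.1)} → B :=
    fun x => ⟨(x.1.1.1, x.1.2.1, (x.1.2.1.1 ^ 2 * x.1.2.2.1).eval x.1.1.1),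
      ⟨x.1.2.2, key _ _ x.2.1 (hcube x.1 x.2.2)⟩⟩
  have hφ : Function.Injective φ := by
    rintro ⟨⟨⟨b, k⟩, ⟨g, h⟩⟩, hx⟩ ⟨⟨⟨b', k'⟩, ⟨g', h'⟩⟩, hx'⟩ he
    have e1 : b = b' := congrArg (fun z : B => z.1.1) he
    have e2 : g = g' := congrArg (fun z : B => z.1.2.1) he
    have e3 : h = h' := congrArg (fun z : B => z.2.1) he
    subst e1 e2 e3
    have hk : k = k' := by
      apply Subtype.ext
      have e := hx.2.trans hx'.2.symm
      exact mul_left_cancel₀ (pow_ne_zero 2 (X_sub_C_ne_zero b)) e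
    subst hk
    rfl
  haveI : Finite B := inferInstance
  haveI : Fintype K := Fintype.ofFinite K
  haveI : Fintype (Mon K 2) := Fintype.ofFinite _
  refine (Nat.card_le_card_of_injective φ hφ).trans ?_
  have hB : Nat.card B = ∑ t : K × Mon K 2 × K, Nat.card K ^ (n - 6) := by
    rw [Nat.card_sigma]
    apply Finset.sum_congr rfl
    intro t _
    have hm : ((X - C t.1) ^ 3 : K[X]).Monic := (monic_X_sub_C t.1).pow 3
    have hd : ((X - C t.1) ^ 3 : K[X]).natDegree = 3 := by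
      rw [natDegree_pow, natDegree_X_sub_C]
    have := hR K (n - 3) ((X - C t.1) ^ 3) (r t) hm (by rw [hd]; omega)
    rw [this, hd]
    congr 1
  rw [hB, Finset.sum_const, Finset.card_univ, smul_eq_mul, ← Nat.card_eq_fintype_card,
    Nat.card_prod, Nat.card_prod, (hC K 2).2]
  apply le_of_eq
  have : n - 2 = 1 + (2 + 1) + (n - 6) := by omega
  rw [this, pow_add, pow_add, pow_add, pow_one]

end Pool.Agent.L7h21.AB
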