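import Pool.Agent.L7h10.AB.Stm

/-! Project AB, part CNTF. -/

namespace Pool.Agent.L7h21.AB
open Pool.Agent.L7h10.AB

lemma ne0 (K : Type) [Field K] (p : ℕ) [CharP K p] (h5 : 5 < p) (n : ℕ) (hn : 0 < n) (hn' : n ≤ 5) :
    ((n : ℕ) : K) ≠ 0 := by
  intro h
  rw [CharP.cast_eq_zero_iff K p n] at h
  have := Nat.le_of_dvd hn h
  omega

theorem s_CNTF : S_CNTF := by
  intro hC hI K _ _ p _ h5 P hP Q hQ
  classical
  have h2 : (2 : K) ≠ 0 := by exact_mod_cast ne0 K p h5 2 (by norm_num) (by norm_num)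
  have h3 : (3 : K) ≠ 0 := by exact_mod_cast ne0 K p h5 3 (by norm_num) (by norm_num)
  have h5' : (5 : K) ≠ 0 := by exact_mod_cast ne0 K p h5 5 (by norm_num) (by norm_num)
  have h12 : (12 : K) ≠ 0 := by
    have : (12 : K) = 2 * 2 * 3 := by norm_num
    rw [this]
    exact mul_ne_zero (mul_ne_zero h2 h2) h3
  have h4 : (4 : K) ≠ 0 := by
    have : (4 : K) = 2 * 2 := by norm_num
    rw [this]
    exact mul_ne_zero h2 h2
  obtain ⟨hI1, hI2⟩ := hI K h2 h3 h5'
  obtain ⟨hC1, hC2⟩ := hC K p h5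
  have hq : 5 < Nat.card K := by
    haveI := Fintype.ofFinite K
    obtain ⟨n, hp, hn⟩ := FiniteField.card K p
    rw [Nat.card_eq_fintype_card, hn]
    exact lt_of_lt_of_le h5 (Nat.le_self_pow n.ne_zero p)
  -- nonzero elements
  have hnz : ({e : K | e ≠ 0} : Set K).ncard = Nat.card K - 1 := by
    have h := Set.ncard_add_ncard_compl ({0} : Set K)
    rw [Set.ncard_singleton] at h
    have e : ({e : K | e ≠ 0} : Set K) = ({0} : Set K)ᶜ := by
      ext x
      simp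
    rw [e]
    omega
  -- the first family
  have hA : ({x : K × K × K | P x.1 x.2.1 x.2.2} : Set (K × K × K)).ncard = Nat.card K ^ 2 := by
    have e : ({x : K × K × K | P x.1 x.2.1 x.2.2} : Set (K × K × K)) =
        (fun y : K × K => ((y.2 - 3 * y.1 ^ 2, 2 * y.1 ^ 3 - 2 * y.1 * y.2, y.1 ^ 2 * y.2) : K × K × K)) ''
          {x : K × K | x.2 ≠ x.1 ^ 2 ∨ x.1 = 0} ∪
        (fun e : K => ((-2 * e, 0, e ^ 2) : K × K × K)) '' {e : K | e ≠ 0} := by
      ext ⟨b, c, d⟩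
      simp only [Set.mem_setOf_eq, Set.mem_union, Set.mem_image, Prod.exists, Prod.mk.injEq]
      rw [hP]
      constructor
      · rintro (⟨u, w, h, hb, hc, hd⟩ | ⟨e, he, hb, hc, hd⟩)
        · exact Or.inl ⟨u, w, h, hb.symm, hc.symm, hd.symm⟩
        · exact Or.inr ⟨e, he, hb.symm, hc.symm, hd.symm⟩
      · rintro (⟨u, w, h, hb, hc, hd⟩ | ⟨e, he, hb, hc, hd⟩)
        · exact Or.inl ⟨u, w, h, hb.symm, hc.symm, hd.symm⟩
        · exact Or.inr ⟨e, he, hb.symm, hc.symm, hd.symm⟩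
    rw [e, Set.ncard_union_eq _ (Set.toFinite _) (Set.toFinite _), Set.ncard_image_of_injOn,
      Set.ncard_image_of_injOn, hnz]
    · exact hC2
    · intro x _ y _ hxy
      simp only [Prod.mk.injEq] at hxy
      exact mul_left_cancel₀ (neg_ne_zero.mpr h2) hxy.1
    · rintro ⟨u, w⟩ hx ⟨u', w'⟩ hy hxy
      simp only [Prod.mk.injEq] at hxy
      simp only [Set.mem_setOf_eq] at hx hy
      rcases hI2 u w u' w' _ _ _ ⟨rfl, rfl, rfl⟩ ⟨hxy.1, hxy.2.1, hxy.2.2⟩ with ⟨h1, h1'⟩ | ⟨h1, h1', h1''⟩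
      · rw [h1, h1']
      · have hu : u = 0 := by
          rcases hx with hx | hx
          · exact absurd h1' hx
          · exact hx
        subst hu
        rw [h1, h1', h1'']
        simp
    · rw [Set.disjoint_left]
      rintro ⟨b, c, d⟩ ⟨⟨u, w⟩, hx, h⟩ ⟨e, he, h'⟩
      simp only [Prod.mk.injEq] at h h'
      simp only [Set.mem_setOf_eq] at hx he
      obtain ⟨hb, hc, hd⟩ := h
      obtain ⟨hb', hc', hd'⟩ := h'
      have hu : u = 0 := by
        rcases hx with hx | hx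
        · have h0 : 2 * (u * (u ^ 2 - w)) = 0 := by
            have : 2 * u ^ 3 - 2 * u * w = 0 := by rw [hc, hc']
            linear_combination this
          rcases mul_eq_zero.mp h0 with h0 | h0
          · exact absurd h0 h2
          · rcases mul_eq_zero.mp h0 with h0 | h0
            · exact h0
            · exact absurd (sub_eq_zero.mp h0).symm hx
        · exact hx
      subst hu
      apply he
      have : e ^ 2 = 0 := by
        rw [hd', ← hd]
        ring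
      exact pow_eq_zero_iff (two_ne_zero) |>.mp this
  have hB : ({x : K × K × K | ¬ P x.1 x.2.1 x.2.2 ∧ Q x.1 x.2.1 x.2.2} : Set (K × K × K)).ncard =
      (Nat.card K - 1) * (Nat.card K - 3) + (Nat.card K - 1) := by
    have e : ({x : K × K × K | ¬ P x.1 x.2.1 x.2.2 ∧ Q x.1 x.2.1 x.2.2} : Set (K × K × K)) =
        (fun y : K × K => ((-6 * (y.1 ^ 2 + y.2), 8 * y.1 * (y.1 ^ 2 - y.2),
          -(y.1 ^ 2 - 5 * y.2) * (3 * y.1 ^ 2 + y.2)) : K × K × K)) ''
          {x : K × K | Val x.1 x.2 ∧ x.2 ≠ x.1 ^ 2} ∪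
        (fun e : K => ((-12 * e, 0, 16 * e ^ 2) : K × K × K)) '' {e : K | e ≠ 0} := by
      ext ⟨b, c, d⟩
      simp only [Set.mem_setOf_eq, Set.mem_union, Set.mem_image, Prod.exists, Prod.mk.injEq]
      rw [hQ]
      constructor
      · rintro (⟨u, w, h, h', hb, hc, hd⟩ | ⟨e, he, hb, hc, hd⟩)
        · exact Or.inl ⟨u, w, ⟨h, h'⟩, hb.symm, hc.symm, hd.symm⟩
        · exact Or.inr ⟨e, he, hb.symm, hc.symm, hd.symm⟩
      · rintro (⟨u, w, ⟨h, h'⟩, hb, hc, hd⟩ | ⟨e, he, hb, hc, hd⟩)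
        · exact Or.inl ⟨u, w, h, h', hb.symm, hc.symm, hd.symm⟩
        · exact Or.inr ⟨e, he, hb.symm, hc.symm, hd.symm⟩
    rw [e, Set.ncard_union_eq _ (Set.toFinite _) (Set.toFinite _), Set.ncard_image_of_injOn,
      Set.ncard_image_of_injOn, hnz]
    · congr 1
    · intro x _ y _ hxy
      simp only [Prod.mk.injEq] at hxy
      exact mul_left_cancel₀ (neg_ne_zero.mpr h12) hxy.1
    · rintro ⟨m, e⟩ hx ⟨m', e'⟩ hy hxy
      simp only [Prod.mk.injEq] at hxy
      simp only [Set.mem_setOf_eq] at hx hy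
      rcases hI1 m e m' e' _ _ _ ⟨rfl, rfl, rfl⟩ ⟨hxy.1, hxy.2.1, hxy.2.2⟩ with ⟨h1, h1'⟩ | ⟨h1, h1', h1''⟩
      · rw [h1, h1']
      · exact absurd h1' hx.2
    · rw [Set.disjoint_left]
      rintro ⟨b, c, d⟩ ⟨⟨m, e⟩, hx, h⟩ ⟨e', he, h'⟩
      simp only [Prod.mk.injEq] at h h'
      simp only [Set.mem_setOf_eq] at hx he
      obtain ⟨hb, hc, hd⟩ := h
      obtain ⟨hb', hc', hd'⟩ := h'
      have hm : m = 0 := by
        have h0 : 2 * 4 * (m * (m ^ 2 - e)) = 0 := by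
          have : 8 * m * (m ^ 2 - e) = 0 := by rw [hc, hc']
          linear_combination this
        rcases mul_eq_zero.mp h0 with h0 | h0
        · exact absurd h0 (mul_ne_zero h2 h4)
        · rcases mul_eq_zero.mp h0 with h0 | h0
          · exact h0
          · exact absurd (sub_eq_zero.mp h0).symm hx.2
      subst hm
      have h6 : (2 * 3 : K) * (e - 2 * e') = 0 := by
        have : -6 * ((0 : K) ^ 2 + e) = -12 * e' := by rw [hb, hb']
        linear_combination -this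
      have he2 : e = 2 * e' := by
        rcases mul_eq_zero.mp h6 with h0 | h0
        · exact absurd h0 (mul_ne_zero h2 h3)
        · exact sub_eq_zero.mp h0
      apply he
      have h7 : 4 * e' ^ 2 = 0 := by
        have : -((0 : K) ^ 2 - 5 * e) * (3 * 0 ^ 2 + e) = 16 * e' ^ 2 := by rw [hd, hd']
        rw [he2] at this
        linear_combination this
      rcases mul_eq_zero.mp h7 with h0 | h0
      · exact absurd h0 h4
      · exact pow_eq_zero_iff (two_ne_zero) |>.mp h0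
  have hU : (({x : K × K × K | P x.1 x.2.1 x.2.2} : Set (K × K × K)) ∪
      {x : K × K × K | ¬ P x.1 x.2.1 x.2.2 ∧ Q x.1 x.2.1 x.2.2}).ncard =
      Nat.card K ^ 2 + ((Nat.card K - 1) * (Nat.card K - 3) + (Nat.card K - 1)) := by
    rw [Set.ncard_union_eq _ (Set.toFinite _) (Set.toFinite _), hA, hB]
    rw [Set.disjoint_left]
    intro x hx hx'
    exact hx'.1 hx
  have hcomp := Set.ncard_add_ncard_compl (({x : K × K × K | P x.1 x.2.1 x.2.2} : Set (K × K × K)) ∪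
      {x : K × K × K | ¬ P x.1 x.2.1 x.2.2 ∧ Q x.1 x.2.1 x.2.2})
  rw [hU, Nat.card_prod, Nat.card_prod] at hcomp
  have hset : (({x : K × K × K | P x.1 x.2.1 x.2.2} : Set (K × K × K)) ∪
      {x : K × K × K | ¬ P x.1 x.2.1 x.2.2 ∧ Q x.1 x.2.1 x.2.2})ᶜ =
      {x : K × K × K | ¬ P x.1 x.2.1 x.2.2 ∧ ¬ Q x.1 x.2.1 x.2.2} := by
    ext x
    simp only [Set.mem_compl_iff, Set.mem_union, Set.mem_setOf_eq]
    tauto
  rw [hset] at hcomp
  have hgoal : Nat.card {x : K × K × K // ¬ P x.1 x.2.1 x.2.2 ∧ ¬ Q x.1 x.2.1 x.2.2} =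
      ({x : K × K × K | ¬ P x.1 x.2.1 x.2.2 ∧ ¬ Q x.1 x.2.1 x.2.2} : Set (K × K × K)).ncard := rfl
  rw [hgoal]
  obtain ⟨r, hr⟩ : ∃ r, Nat.card K = r + 3 := ⟨Nat.card K - 3, by omega⟩
  rw [hr] at hcomp ⊢
  have e1 : r + 3 - 1 = r + 2 := by omega
  have e2 : r + 3 - 3 = r := by omega
  have e3 : (r + 3) ^ 2 - (r + 3) = r ^ 2 + 5 * r + 6 := by
    have : (r + 3) ^ 2 = r ^ 2 + 5 * r + 6 + (r + 3) := by ring
    omega
  rw [e1, e2] at hcomp
  rw [e1, e3]
  nlinarith [hcomp]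

end Pool.Agent.L7h21.AB
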